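import Mathlib
import Pool.Agent.H79.QR.Fin

/-! Deciding which curves `y² = quartic in x` of genus 1 have infinitely many rational points is
Turing equivalent to computing the ranks of all elliptic curves over `ℚ`; hence the rank function
of elliptic curves over `ℚ` is Turing reducible to the decision problem for plane curves. -/

set_option autoImplicit false

namespace Pool.Agent.Results.MP_d6ddbd_nt.AllRanks

/-- `f = 0` has infinitely many rational solutions, `f` given as a list of coefficient lists. -/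
def InfZ (L : List (List ℤ)) : Prop :=
  Set.Infinite {p : ℚ × ℚ | ∑ i ∈ Finset.range L.length,
    ∑ j ∈ Finset.range (L.getD i []).length,
      (((L.getD i []).getD j 0 : ℤ) : ℚ) * p.1 ^ i * p.2 ^ j = 0}

/-- The coefficient lists of `y² - (a x⁴ + b x³ + c x² + d x + e)`, `g = (a, b, c, d, e)`. -/
def quart (g : ℤ × ℤ × ℤ × ℤ × ℤ) : List (List ℤ) :=
  [[-g.2.2.2.2, 0, 1], [-g.2.2.2.1], [-g.2.2.1], [-g.2.1], [-g.1]]

/-- The invariant `I = 12 a e - 3 b d + c²` of the quartic. -/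
def invI (g : ℤ × ℤ × ℤ × ℤ × ℤ) : ℤ :=
  12 * g.1 * g.2.2.2.2 - 3 * g.2.1 * g.2.2.2.1 + g.2.2.1 ^ 2

/-- The invariant `J = 72 a c e + 9 b c d - 27 a d² - 27 e b² - 2 c³` of the quartic. -/
def invJ (g : ℤ × ℤ × ℤ × ℤ × ℤ) : ℤ :=
  72 * g.1 * g.2.2.1 * g.2.2.2.2 + 9 * g.2.1 * g.2.2.1 * g.2.2.2.1
    - 27 * g.1 * g.2.2.2.1 ^ 2 - 27 * g.2.2.2.2 * g.2.1 ^ 2 - 2 * g.2.2.1 ^ 3

/-- The discriminant `(4 I³ - J²) / 27` of the (binary) quartic is not zero, and the curve
`y² = a x⁴ + b x³ + c x² + d x + e` has infinitely many rational points. -/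
def FamInf (g : ℤ × ℤ × ℤ × ℤ × ℤ) : Prop := 4 * invI g ^ 3 ≠ invJ g ^ 2 ∧ InfZ (quart g)

/-- The rank of the group of rational points of `y² = x³ + A x + B`, `q = (A, B)`; `0` if the
curve is singular. -/
noncomputable def rk (q : ℤ × ℤ) : ℕ :=
  if 4 * q.1 ^ 3 + 27 * q.2 ^ 2 ≠ 0 then
    Module.finrank ℤ ((⟨0, 0, 0, (q.1 : ℚ), (q.2 : ℚ)⟩ : WeierstrassCurve ℚ).toAffine.Point) else 0

/-- The function `f` as a partial function on codes, to be used as an oracle. -/
def orc {α σ : Type} [Primcodable α] [Primcodable σ] (f : α → σ) : ℕ →. ℕ :=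
  fun n => Part.bind (Encodable.decode (α := α) n) fun a => Part.some (Encodable.encode (f a))

open Classical in
theorem result :
    (∀ (a b c d e : ℤ) (x y : ℚ), (∑ i ∈ Finset.range (quart (a, b, c, d, e)).length,
      ∑ j ∈ Finset.range ((quart (a, b, c, d, e)).getD i []).length,
        ((((quart (a, b, c, d, e)).getD i []).getD j 0 : ℤ) : ℚ) * x ^ i * y ^ j) =
        y ^ 2 - (a * x ^ 4 + b * x ^ 3 + c * x ^ 2 + d * x + e)) ∧
    TuringEquivalent (orc rk) (orc (fun g => decide (FamInf g))) ∧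
    TuringReducible (orc rk) (orc (fun L => decide (InfZ L))) ∧
    (ComputablePred FamInf ↔ Computable rk) ∧
    (ComputablePred InfZ → Computable rk) :=
  ⟨fun a b c d e x y => Pool.Agent.H79.QR.quart_eval (a, b, c, d, e) x y,
    Pool.Agent.H79.QR.main.1, Pool.Agent.H79.QR.main.2,
    ⟨Pool.Agent.H79.QR.fwd', Pool.Agent.H79.QR.rev'⟩,
    fun h => Pool.Agent.H79.QR.fwd' (Pool.Agent.H79.QR.fam_of h)⟩

end Pool.Agent.Results.MP_d6ddbd_nt.AllRanks
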